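import Pool.Agent.N943.NT.Basic

set_option autoImplicit false

/-!
Project NT, task NT/6b: growth of the number of codes along a tree.
-/

namespace Pool.Agent.N749.NT

open Finset N943.NT

section step

variable {ι : Type} [DecidableEq ι]

/-- the recursion step -/
theorem step (D : ℕ) (γ : ℝ) (hγ : 1 < γ) (K t0 : ℕ) (hK : K = 2 * D.factorial)
    (ht : t0 = 2 * K) (hγ2 : γ ^ (D * t0 + 1) ≤ 3 / 2) (s : Finset ι) (hs : s.card ≤ D)
    (m N : ι → ℕ) (μ e mw Nw : ℕ) (he : e ≤ 1) (hmw : mw = e + ∑ i ∈ s, m i)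
    (hNw : (1 + e) * μ ≤ Nw) (h1 : ∀ i ∈ s, m i + 1 ≤ N i)
    (h2 : ∀ i ∈ s, t0 ≤ m i → (K : ℝ) * γ ^ (m i) ≤ N i) (b1 : ∀ i ∈ s, N i ≤ μ)
    (b2 : ∀ i ∈ s, ∀ j ∈ s, i ≠ j → 2 ≤ N i → 2 ≤ N j → 3 * N i ≤ 2 * μ)
    (b3 : ∀ I ⊆ s, ∏ i ∈ I, N i ≤ I.card.factorial * μ)
    (b4 : 1 + ∑ i ∈ s, (N i - 1) ≤ μ) :
    mw + 1 ≤ Nw ∧ (t0 ≤ mw → (K : ℝ) * γ ^ mw ≤ Nw) := by
  have hγ0 : 0 < γ := by linarith
  have hfac : 1 ≤ D.factorial := Nat.succ_le_of_lt D.factorial_pos
  have hK1 : 1 ≤ K := by omega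
  have hsum : ∑ i ∈ s, m i ≤ ∑ i ∈ s, (N i - 1) :=
    sum_le_sum fun i hi => by have := h1 i hi; omega
  have hμN : μ ≤ Nw := by nlinarith
  have c1 : mw + 1 ≤ Nw := by
    have : e = 0 ∨ e = 1 := by omega
    rcases this with rfl | rfl
    · omega
    · omega
  refine ⟨c1, fun hm => ?_⟩
  -- the heavy children
  obtain ⟨I, hI⟩ : ∃ I : Finset ι, I = s.filter (fun i => t0 ≤ m i) := ⟨_, rfl⟩
  have hIs : I ⊆ s := by rw [hI]; exact filter_subset _ _
  have hI2 : ∀ i ∈ I, t0 ≤ m i := fun i hi => by rw [hI, mem_filter] at hi; exact hi.2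
  have hsplit : ∑ i ∈ s, m i = ∑ i ∈ I, m i + ∑ i ∈ s \ I, m i := by
    rw [add_comm, sum_sdiff hIs]
  have hrest : ∑ i ∈ s \ I, m i ≤ D * t0 := by
    calc ∑ i ∈ s \ I, m i ≤ ∑ i ∈ s \ I, t0 := by
          apply sum_le_sum
          intro i hi
          rw [mem_sdiff, hI, mem_filter, not_and] at hi
          have := hi.2 hi.1
          omega
      _ = (s \ I).card * t0 := by rw [sum_const, smul_eq_mul]
      _ ≤ D * t0 := Nat.mul_le_mul_right _ ((card_le_card sdiff_subset).trans hs)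
  have hmle : mw ≤ ∑ i ∈ I, m i + (D * t0 + 1) := by omega
  have hpow : γ ^ mw ≤ γ ^ (∑ i ∈ I, m i) * (3 / 2) := by
    calc γ ^ mw ≤ γ ^ (∑ i ∈ I, m i + (D * t0 + 1)) := pow_le_pow_right₀ hγ.le hmle
      _ = γ ^ (∑ i ∈ I, m i) * γ ^ (D * t0 + 1) := pow_add _ _ _
      _ ≤ _ := by gcongr
  have hKr : (0 : ℝ) < K := by exact_mod_cast hK1
  have hμNr : (μ : ℝ) ≤ Nw := by exact_mod_cast hμN
  rcases Nat.lt_or_ge I.card 2 with hc | hc
  · rcases Nat.lt_or_ge I.card 1 with hc0 | hc0
    · -- no heavy child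
      have hIe : I = ∅ := by rw [← card_eq_zero]; omega
      rw [hIe, sum_empty, pow_zero, one_mul] at hpow
      have h3 : (2 * K : ℝ) + 1 ≤ Nw := by
        have : 2 * K + 1 ≤ Nw := by omega
        exact_mod_cast this
      nlinarith
    · -- one heavy child
      have hI1 : I.card = 1 := by omega
      obtain ⟨i, hi⟩ := card_eq_one.1 hI1
      have hiI : i ∈ I := by rw [hi]; exact mem_singleton_self i
      have his : i ∈ s := hIs hiI
      rw [hi, sum_singleton] at hpow
      have hNi := h2 i his (hI2 i hiI)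
      have hNμ : (N i : ℝ) ≤ μ := by exact_mod_cast b1 i his
      have he' : e = 0 ∨ e = 1 := by omega
      rcases he' with rfl | rfl
      · by_cases hex : ∃ j ∈ s, j ≠ i ∧ 1 ≤ m j
        · obtain ⟨j, hjs, hji, hj1⟩ := hex
          have hNj : 2 ≤ N j := by have := h1 j hjs; omega
          have hNi2 : 2 ≤ N i := by
            have := h1 i his
            have := hI2 i hiI
            omega
          have h3 := b2 i his j hjs hji.symm hNi2 hNj
          have h3r : (3 : ℝ) * N i ≤ 2 * μ := by exact_mod_cast h3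
          nlinarith
        · -- all others are zero
          have h0 : ∑ j ∈ s, m j = m i := by
            apply sum_eq_single_of_mem i his
            intro j hj hji
            by_contra hne
            exact hex ⟨j, hj, hji, Nat.one_le_iff_ne_zero.2 hne⟩
          have hmw' : mw = m i := by omega
          rw [hmw']
          linarith
      · have h3 : (2 : ℝ) * μ ≤ Nw := by
          have : (1 + 1) * μ ≤ Nw := hNw
          have : 2 * μ ≤ Nw := by omega
          exact_mod_cast this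
        nlinarith
  · -- at least two heavy children
    have h3 := b3 I hIs
    have hIc : I.card ≤ D := (card_le_card hIs).trans hs
    have h4 : I.card.factorial ≤ D.factorial := Nat.factorial_le hIc
    have h5 : ∏ i ∈ I, N i ≤ D.factorial * Nw :=
      h3.trans (Nat.mul_le_mul h4 hμN)
    have h5r : (∏ i ∈ I, (N i : ℝ)) ≤ D.factorial * Nw := by exact_mod_cast h5
    have h6 : (K : ℝ) ^ I.card * γ ^ (∑ i ∈ I, m i) ≤ ∏ i ∈ I, (N i : ℝ) := by
      rw [← prod_pow_eq_pow_sum, ← prod_const, ← prod_mul_distrib]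
      apply prod_le_prod
      · intro i _
        positivity
      · intro i hi
        exact h2 i (hIs hi) (hI2 i hi)
    have hK1r : (1 : ℝ) ≤ K := by exact_mod_cast hK1
    have h7 : (K : ℝ) ^ 2 ≤ (K : ℝ) ^ I.card := pow_le_pow_right₀ hK1r hc
    have hγp : 0 < γ ^ (∑ i ∈ I, m i) := by positivity
    have h8 : (K : ℝ) ^ 2 * γ ^ (∑ i ∈ I, m i) ≤ D.factorial * Nw := by
      calc (K : ℝ) ^ 2 * γ ^ (∑ i ∈ I, m i) ≤ (K : ℝ) ^ I.card * γ ^ (∑ i ∈ I, m i) := by gcongr
        _ ≤ _ := h6.trans h5r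
    have hKf : (K : ℝ) = 2 * D.factorial := by rw [hK]; push_cast; ring
    have hf : (0 : ℝ) < D.factorial := by exact_mod_cast D.factorial_pos
    have h9 : (2 : ℝ) * (K * γ ^ (∑ i ∈ I, m i)) ≤ Nw := by
      have h10 : (D.factorial : ℝ) * (2 * (K * γ ^ (∑ i ∈ I, m i))) ≤ D.factorial * Nw := by
        calc (D.factorial : ℝ) * (2 * (K * γ ^ (∑ i ∈ I, m i)))
            = (2 * D.factorial) * K * γ ^ (∑ i ∈ I, m i) := by ring
          _ = (K : ℝ) ^ 2 * γ ^ (∑ i ∈ I, m i) := by rw [← hKf]; ring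
          _ ≤ _ := h8
      exact le_of_mul_le_mul_left h10 hf
    have h11 : (0 : ℝ) < K * γ ^ (∑ i ∈ I, m i) := by positivity
    calc (K : ℝ) * γ ^ mw ≤ K * (γ ^ (∑ i ∈ I, m i) * (3 / 2)) := by gcongr
      _ ≤ 2 * (K * γ ^ (∑ i ∈ I, m i)) := by nlinarith
      _ ≤ Nw := h9

end step

section tree

variable {V : Type} [Fintype V] [DecidableEq V] {r : V} {p : V → V}

open Classical in
/-- the number of marked vertices below `w` -/
noncomputable def mk (p : V → V) (M : Finset V) (w : V) : ℕ :=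
  (M.filter (fun x => Anc p w x)).card

theorem dep_child (h : RT r p) {c w : V} (hc : c ∈ ch p w) : dep r p c = dep r p w + 1 := by
  rw [h.mem_ch_iff] at hc
  rw [h.dep_succ hc.1, hc.2]

theorem mk_rec (h : RT r p) (M : Finset V) (w : V) :
    mk p M w = (if w ∈ M then 1 else 0) + ∑ c ∈ ch p w, mk p M c := by
  classical
  have hdis : ∀ c ∈ ch p w, ∀ c' ∈ ch p w, c ≠ c' →
      Disjoint (M.filter (fun x => Anc p c x)) (M.filter (fun x => Anc p c' x)) := by
    intro c hc c' hc' hne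
    rw [disjoint_left]
    intro x hx hx'
    rw [mem_filter] at hx hx'
    exact hne (Anc.eq_of_dep_eq h hx.2 hx'.2 (by rw [dep_child h hc, dep_child h hc']))
  have h2 : Disjoint (M.filter (fun x => x = w))
      ((ch p w).biUnion (fun c => M.filter (fun x => Anc p c x))) := by
    rw [disjoint_left]
    intro x hx hx'
    rw [mem_filter] at hx
    obtain ⟨c, hc, hcx⟩ := mem_biUnion.1 hx'
    rw [mem_filter] at hcx
    have h3 := Anc.dep_le h hcx.2
    rw [hx.2, dep_child h hc] at h3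
    omega
  have h1 : M.filter (fun x => Anc p w x) = M.filter (fun x => x = w) ∪
      (ch p w).biUnion (fun c => M.filter (fun x => Anc p c x)) := by
    ext x
    simp only [mem_filter, mem_union, mem_biUnion]
    constructor
    · rintro ⟨hx, hwx⟩
      by_cases hxw : w = x
      · exact Or.inl ⟨hx, hxw.symm⟩
      · obtain ⟨u, hu, hux⟩ := Anc.exists_child hwx hxw
        exact Or.inr ⟨u, hu, hx, hux⟩
    · rintro (⟨hx, rfl⟩ | ⟨c, hc, hx, hcx⟩)
      · exact ⟨hx, Anc.refl _⟩
      · refine ⟨hx, Anc.trans ?_ hcx⟩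
        rw [mem_ch] at hc
        rw [← hc.2]
        exact Anc.parent c
  unfold mk
  rw [h1, card_union_of_disjoint h2, card_biUnion hdis]
  congr 1
  split_ifs with hw
  · rw [show M.filter (fun x => x = w) = {w} by ext x; simp; rintro rfl; exact hw]
    exact card_singleton w
  · rw [show M.filter (fun x => x = w) = ∅ by
      ext x; simp; intro hx hxw; exact hw (hxw ▸ hx)]
    exact card_empty

omit [Fintype V] [DecidableEq V] in
theorem mk_root (h : RT r p) (M : Finset V) : mk p M r = M.card := by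
  classical
  unfold mk
  congr 1
  rw [filter_eq_self]
  intro x _
  exact h.anc_root x

end tree

theorem growth (h : MultBd) : Growth := by
  intro D
  obtain ⟨K, hK⟩ : ∃ K : ℕ, K = 2 * D.factorial := ⟨_, rfl⟩
  obtain ⟨t0, ht⟩ : ∃ t0 : ℕ, t0 = 2 * K := ⟨_, rfl⟩
  obtain ⟨L, hL⟩ : ∃ L : ℕ, L = D * t0 + 1 + t0 := ⟨_, rfl⟩
  have hL0 : (L : ℝ) ≠ 0 := by
    have : L ≠ 0 := by omega
    exact_mod_cast this
  obtain ⟨γ, hγ, hγL⟩ : ∃ γ : ℝ, 1 < γ ∧ γ ^ L = 3 / 2 := by
    refine ⟨(3 / 2 : ℝ) ^ (1 / (L : ℝ)), ?_, ?_⟩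
    · apply Real.one_lt_rpow (by norm_num)
      have : 0 < L := by omega
      positivity
    · rw [← Real.rpow_natCast, ← Real.rpow_mul (by norm_num), one_div_mul_cancel hL0,
        Real.rpow_one]
  have hpw : ∀ k ≤ L, γ ^ k ≤ 3 / 2 := fun k hk => by
    rw [← hγL]
    exact pow_le_pow_right₀ hγ.le hk
  have hK1 : 1 ≤ K := by
    have := D.factorial_pos
    omega
  refine ⟨γ, hγ, ?_⟩
  intro V _ _ r p M C hp hD hC hrec
  have main : ∀ (n : ℕ) (w : V), Fintype.card V * 2 + (univ.sup (dep r p)) - dep r p w ≤ n →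
      mk p M w + 1 ≤ (C w).card ∧ (t0 ≤ mk p M w → (K : ℝ) * γ ^ (mk p M w) ≤ (C w).card) := by
    intro n
    induction n with
    | zero =>
      intro w hw
      have h1 : dep r p w ≤ univ.sup (dep r p) := le_sup (mem_univ w)
      have h2 : 0 < Fintype.card V := Fintype.card_pos_iff.2 ⟨w⟩
      omega
    | succ n ih =>
      intro w hw
      have ih' : ∀ c ∈ ch p w, mk p M c + 1 ≤ (C c).card ∧
          (t0 ≤ mk p M c → (K : ℝ) * γ ^ (mk p M c) ≤ (C c).card) := by
        intro c hc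
        apply ih
        have h1 := dep_child hp hc
        have h2 : dep r p c ≤ univ.sup (dep r p) := le_sup (mem_univ c)
        omega
      obtain ⟨b1, b2, b3, b4⟩ := h V (ch p w) C (fun i _ => hC i)
      refine step D γ hγ K t0 hK ht (hpw _ (by omega)) (ch p w) (hD w) (mk p M)
        (fun i => (C i).card) (mult (ch p w) C) (if w ∈ M then 1 else 0) _ _ ?_
        (mk_rec hp M w) ?_ (fun i hi => (ih' i hi).1) (fun i hi => (ih' i hi).2) b1 b2 b3 b4
      · split_ifs <;> omega
      · have := hrec w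
        split_ifs at this ⊢ with hwM
        · exact this
        · simpa using this
  obtain ⟨m1, m2⟩ := main _ r le_rfl
  rw [mk_root hp] at m1 m2
  rcases Nat.lt_or_ge M.card t0 with hM | hM
  · rcases Nat.eq_zero_or_pos M.card with h0 | h0
    · rw [h0, pow_zero]
      have : 1 ≤ (C r).card := by omega
      exact_mod_cast this
    · have h1 := hpw M.card (by omega)
      have h2 : (2 : ℝ) ≤ (C r).card := by
        have : 2 ≤ (C r).card := by omega
        exact_mod_cast this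
      linarith
  · have h1 := m2 hM
    have h2 : (1 : ℝ) ≤ K := by exact_mod_cast hK1
    have h3 : 0 < γ ^ M.card := by positivity
    nlinarith

end Pool.Agent.N749.NT
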