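import Pool.Agent.N943.NT.Basic

set_option autoImplicit false

/-!
Project NT, task NT/6: the marks lemma from the growth lemma.
-/

namespace Pool.Agent.N749.NT

open Finset N943.NT

section code

variable {V : Type} [Fintype V] [DecidableEq V] {r : V} {p : V → V}

/-- code of the labelled tree below a vertex, with fuel -/
def codeF (p : V → V) (L : V → ℕ) : ℕ → V → ℕ
  | 0, _ => 0
  | k + 1, w => Encodable.encode (L w, (ch p w).val.map (codeF p L k))

theorem codeF_congr (L L' : V → ℕ) : ∀ (k : ℕ) (w : V), (∀ x, Anc p w x → L x = L' x) →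
    codeF p L k w = codeF p L' k w := by
  intro k
  induction k with
  | zero => intro w _; rfl
  | succ k ih =>
    intro w hw
    simp only [codeF]
    rw [hw w (Anc.refl w)]
    congr 2
    apply Multiset.map_congr rfl
    intro v hv
    apply ih
    intro x hx
    apply hw
    have hv' : v ∈ ch p w := hv
    rw [mem_ch] at hv'
    refine Anc.trans ?_ hx
    rw [← hv'.2]
    exact Anc.parent v

theorem codeF_conj (L L' : V → ℕ) (θ : Equiv.Perm V) (hθ : ∀ v, θ (p v) = p (θ v))
    (hL : ∀ v, L' (θ v) = L v) : ∀ (k : ℕ) (w : V), codeF p L' k (θ w) = codeF p L k w := by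
  intro k
  induction k with
  | zero => intro w; rfl
  | succ k ih =>
    intro w
    simp only [codeF]
    rw [hL w, conj_ch hθ w]
    congr 2
    rw [map_val, Multiset.map_map]
    apply Multiset.map_congr rfl
    intro v _
    exact ih v

/-- code with enough fuel -/
noncomputable def cd (r : V) (p : V → V) (L : V → ℕ) (w : V) : ℕ :=
  codeF p L (univ.sup (dep r p) + 1 - dep r p w) w

theorem dep_child' (h : RT r p) {c w : V} (hc : c ∈ ch p w) : dep r p c = dep r p w + 1 := by
  rw [h.mem_ch_iff] at hc
  rw [h.dep_succ hc.1, hc.2]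

theorem cd_rec (h : RT r p) (L : V → ℕ) (w : V) :
    cd r p L w = Encodable.encode (L w, (ch p w).val.map (cd r p L)) := by
  have h1 : dep r p w ≤ univ.sup (dep r p) := le_sup (mem_univ w)
  unfold cd
  rw [show univ.sup (dep r p) + 1 - dep r p w = (univ.sup (dep r p) - dep r p w) + 1 by omega]
  simp only [codeF]
  congr 2
  apply Multiset.map_congr rfl
  intro v hv
  have h2 := dep_child' h (c := v) (w := w) hv
  congr 1
  omega

theorem cd_congr (L L' : V → ℕ) (w : V) (h : ∀ x, Anc p w x → L x = L' x) :
    cd r p L w = cd r p L' w := codeF_congr L L' _ w h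

/-- the set of codes -/
noncomputable def CC (r : V) (p : V → V) (c : V → ℕ) (M : Finset V) (w : V) : Finset ℕ :=
  M.powerset.image (fun X => cd r p (lab c X) w)

theorem CC_rec (h : RT r p) (c : V → ℕ) (M : Finset V) (w : V) :
    (if w ∈ M then 2 else 1) * mult (ch p w) (CC r p c M) ≤ (CC r p c M w).card := by
  classical
  obtain ⟨B, hB⟩ : ∃ B : Finset ℕ, B = if w ∈ M then {0, 1} else {0} := ⟨_, rfl⟩
  have hBc : B.card = if w ∈ M then 2 else 1 := by
    rw [hB]; split_ifs <;> simp
  have hB1 : ∀ b ∈ B, b = 0 ∨ (b = 1 ∧ w ∈ M) := by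
    intro b hb
    rw [hB] at hb
    split_ifs at hb with hw
    · simp at hb
      rcases hb with rfl | rfl
      · exact Or.inl rfl
      · exact Or.inr ⟨rfl, hw⟩
    · simp at hb
      exact Or.inl hb
  unfold mult
  rw [← hBc, ← card_product]
  apply card_le_card_of_injOn (fun q : ℕ × Multiset ℕ => Encodable.encode (c w + q.1, q.2))
  · intro q hq
    rw [mem_coe, mem_product, mem_image] at hq
    obtain ⟨hq1, x, hx, hxq⟩ := hq
    rw [mem_pi] at hx
    have hx' : ∀ i : V, ∀ hi : i ∈ ch p w, ∃ X : Finset V, X ⊆ M ∧ cd r p (lab c X) i = x i hi := by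
      intro i hi
      obtain ⟨X, hX, hX2⟩ := mem_image.1 (hx i hi)
      exact ⟨X, mem_powerset.1 hX, hX2⟩
    choose Xf hXf1 hXf2 using hx'
    obtain ⟨Y, hY⟩ : ∃ Y : Finset V, Y = ((ch p w).attach.biUnion
        (fun i => (Xf i.1 i.2).filter (fun y => Anc p i.1 y))) ∪ (if q.1 = 1 then {w} else ∅) :=
      ⟨_, rfl⟩
    have hYM : Y ⊆ M := by
      rw [hY]
      intro y hy
      rw [mem_union] at hy
      rcases hy with hy | hy
      · obtain ⟨i, _, hi⟩ := mem_biUnion.1 hy
        rw [mem_filter] at hi
        exact hXf1 _ _ hi.1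
      · split_ifs at hy with hq0
        · rw [mem_singleton] at hy
          rcases hB1 _ hq1 with h0 | h0
          · omega
          · rw [hy]; exact h0.2
        · simp at hy
    have hYw : w ∈ Y ↔ q.1 = 1 := by
      rw [hY, mem_union]
      constructor
      · rintro (hy | hy)
        · obtain ⟨i, _, hi⟩ := mem_biUnion.1 hy
          rw [mem_filter] at hi
          have h1 := Anc.dep_le h hi.2
          rw [dep_child' h i.2] at h1
          omega
        · split_ifs at hy with hq0
          · exact hq0
          · simp at hy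
      · intro hq0
        right
        rw [if_pos hq0]
        exact mem_singleton_self w
    have hYi : ∀ i (hi : i ∈ ch p w) (y : V), Anc p i y → (y ∈ Y ↔ y ∈ Xf i hi) := by
      intro i hi y hy
      rw [hY, mem_union]
      constructor
      · rintro (hy2 | hy2)
        · obtain ⟨j, _, hj⟩ := mem_biUnion.1 hy2
          rw [mem_filter] at hj
          have hij : i = j.1 := Anc.eq_of_dep_eq h hy hj.2
            (by rw [dep_child' h hi, dep_child' h j.2])
          subst hij
          exact hj.1
        · split_ifs at hy2 with hq0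
          · rw [mem_singleton] at hy2
            have h1 := Anc.dep_le h hy
            rw [dep_child' h hi, hy2] at h1
            omega
          · simp at hy2
      · intro hy2
        left
        rw [mem_biUnion]
        exact ⟨⟨i, hi⟩, mem_attach _ _, mem_filter.2 ⟨hy2, hy⟩⟩
    refine mem_coe.2 (mem_image.2 ⟨Y, mem_powerset.2 hYM, ?_⟩)
    show cd r p (lab c Y) w = Encodable.encode (c w + q.1, q.2)
    rw [cd_rec h]
    congr 2
    · unfold lab
      rcases hB1 _ hq1 with h0 | h0
      · rw [if_neg (fun hw => by rw [hYw] at hw; omega), h0]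
      · rw [if_pos (hYw.2 h0.1), h0.1]
    · rw [← hxq, attach_val, ← Multiset.attach_map_val' (ch p w).val (cd r p (lab c Y))]
      apply Multiset.map_congr rfl
      intro i _
      rw [← hXf2 i.1 i.2]
      apply cd_congr
      intro y hy
      unfold lab
      rw [if_congr (hYi i.1 i.2 y hy) rfl rfl]
  · intro q _ q' _ hqq
    have h1 := Encodable.encode_injective hqq
    rw [Prod.mk.injEq] at h1
    ext1
    · omega
    · exact h1.2

end code

theorem marks (h : Growth) : Marks := by
  intro D
  obtain ⟨γ, hγ, hG⟩ := h D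
  refine ⟨γ, hγ, ?_⟩
  intro V _ _ r p c M hp hD
  have h1 := hG V r p M (CC r p c M) hp hD
    (fun w => (powerset_nonempty M).image _) (CC_rec hp c M)
  have h2 : ∀ y : ℕ, ∃ X : Finset V, y ∈ CC r p c M r → X ⊆ M ∧ cd r p (lab c X) r = y := by
    intro y
    by_cases hy : y ∈ CC r p c M r
    · obtain ⟨X, hX, hX2⟩ := mem_image.1 hy
      exact ⟨X, fun _ => ⟨mem_powerset.1 hX, hX2⟩⟩
    · exact ⟨∅, fun hy2 => absurd hy2 hy⟩
  choose g hg using h2
  refine ⟨(CC r p c M r).image g, ?_, ?_, ?_⟩
  · intro X hX
    obtain ⟨y, hy, rfl⟩ := mem_image.1 hX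
    exact (hg y hy).1
  · rw [card_image_of_injOn]
    · exact h1
    · intro y hy y' hy' hyy
      rw [← (hg y hy).2, ← (hg y' hy').2, hyy]
  · intro X hX Y hY hθ
    obtain ⟨y, hy, rfl⟩ := mem_image.1 hX
    obtain ⟨y', hy', rfl⟩ := mem_image.1 hY
    obtain ⟨θ, hθ1, hθ2⟩ := hθ
    have h3 : cd r p (lab c (g y')) r = cd r p (lab c (g y)) r := by
      have h4 := conj_root hp hp hθ1
      have h5 := codeF_conj _ _ θ hθ1 hθ2 (univ.sup (dep r p) + 1 - dep r p r) r
      rw [h4] at h5
      exact h5
    rw [(hg y hy).2, (hg y' hy').2] at h3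
    rw [h3]

end Pool.Agent.N749.NT
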