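import Pool.Agent.N943.NT.Basic

set_option autoImplicit false

/-!
Project NT, tasks NT/2 (re-rooting) and NT/3 (DFS trees).
-/

namespace Pool.Agent.N749.NT

open Finset N943.NT

section unique

variable {V : Type} {r : V} {p q : V → V}

theorem gr_adj {v w : V} : (gr p).Adj v w ↔ v ≠ w ∧ (p v = w ∨ p w = v) := by
  unfold gr
  rw [SimpleGraph.fromRel_adj]

theorem unique_root (hp : RT r p) (hq : RT r q) (h : gr p = gr q) : p = q := by
  have key : ∀ (n : ℕ) (v : V), dep r q v = n → p v = q v := by
    intro n
    induction n using Nat.strong_induction_on with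
    | _ n ih =>
      intro v hv
      by_cases hvr : v = r
      · rw [hvr, hp.1, hq.1]
      · have hne : v ≠ q v := fun h0 => hvr (hq.eq_root_of_fix h0.symm)
        have h1 : (gr q).Adj v (q v) := gr_adj.2 ⟨hne, Or.inl rfl⟩
        rw [← h, gr_adj] at h1
        rcases h1.2 with h2 | h2
        · exact h2
        · exfalso
          have h3 := hq.dep_succ hvr
          have h4 : q v ≠ r := by
            intro h5
            rw [h5, hp.1] at h2
            exact hvr h2.symm
          have h5 := hq.dep_succ h4
          have h6 : p (q v) = q (q v) := ih (dep r q (q v)) (by omega) (q v) rfl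
          rw [← h6, h2] at h5
          omega
  funext v
  exact key _ v rfl

end unique

theorem reroot : Reroot := by
  intro V _ _ r F hF hconj
  have hK : ∀ a ∈ F, ∀ E ⊆ F, (∀ b ∈ E, Nonempty (gr a ≃g gr b)) →
      E.card ≤ Fintype.card V := by
    intro a ha E hE hb
    have h3 : ∀ b : V → V, ∃ φ : V → V, b ∈ E → ∃ e : gr a ≃g gr b, ∀ v, φ v = e.symm v := by
      intro b
      by_cases hbE : b ∈ E
      · obtain ⟨e⟩ := hb b hbE
        exact ⟨fun v => e.symm v, fun _ => ⟨e, fun _ => rfl⟩⟩
      · exact ⟨id, fun h => absurd h hbE⟩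
    choose φ hφ using h3
    rw [← card_univ]
    apply card_le_card_of_injOn (fun b => φ b r) (fun _ _ => mem_coe.2 (mem_univ _))
    intro b hbE b' hbE' hbb
    obtain ⟨e, he⟩ := hφ b hbE
    obtain ⟨e', he'⟩ := hφ b' hbE'
    have hbb' : e.symm r = e'.symm r := by
      rw [← he, ← he']
      exact hbb
    obtain ⟨θ, hθ⟩ : ∃ θ : gr b ≃g gr b', ∀ v, θ v = e' (e.symm v) := ⟨e'.comp e.symm, fun _ => rfl⟩
    have hθr : θ r = r := by
      rw [hθ, hbb']
      exact e'.apply_symm_apply r
    have hpb := hF b (hE hbE)
    have hpb' := hF b' (hE hbE')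
    obtain ⟨q, hq⟩ : ∃ q : V → V, ∀ v, q (θ v) = θ (b v) :=
      ⟨fun u => θ (b (θ.symm u)), fun v => by
        show θ (b (θ.symm (θ v))) = θ (b v)
        rw [θ.symm_apply_apply]⟩
    have hq2 : RT r q := by
      refine ⟨?_, ?_⟩
      · have := hq r
        rwa [hθr, hpb.1, hθr] at this
      · intro v
        obtain ⟨k, hk⟩ := hpb.2 (θ.symm v)
        refine ⟨k, ?_⟩
        have h4 := conj_iter (θ := θ.toEquiv) (p := b) (q := q) (fun v => (hq v).symm) k (θ.symm v)
        have h5 : θ.toEquiv (θ.symm v) = v := θ.apply_symm_apply v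
        rw [h5, hk] at h4
        rw [← h4]
        exact hθr
    have hq3 : gr q = gr b' := by
      ext u v
      obtain ⟨u', rfl⟩ := θ.surjective u
      obtain ⟨v', rfl⟩ := θ.surjective v
      rw [θ.map_adj_iff, gr_adj, gr_adj, hq, hq]
      constructor
      · rintro ⟨g1, g2 | g2⟩
        · exact ⟨fun h => g1 (by rw [h]), Or.inl (θ.injective g2)⟩
        · exact ⟨fun h => g1 (by rw [h]), Or.inr (θ.injective g2)⟩
      · rintro ⟨g1, g2 | g2⟩
        · exact ⟨fun h => g1 (θ.injective h), Or.inl (by rw [g2])⟩
        · exact ⟨fun h => g1 (θ.injective h), Or.inr (by rw [g2])⟩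
    have hq4 : q = b' := unique_root hq2 hpb' hq3
    apply hconj b (hE hbE) b' (hE hbE')
    refine ⟨θ.toEquiv, fun v => ?_⟩
    exact (hq v).symm.trans (congrFun hq4 (θ v))
  obtain ⟨F', hF', h1, h2⟩ := reps F (fun p q => Nonempty (gr p ≃g gr q))
    (fun a b h => h.map SimpleGraph.Iso.symm)
    (fun a b c h h' => h.elim fun e => h'.elim fun e' => ⟨e'.comp e⟩)
    (fun a => ⟨SimpleGraph.Iso.refl⟩) (Fintype.card V) hK
  exact ⟨F', hF', h2, h1⟩

section normal

variable {V : Type} {r : V} {p : V → V}

theorem dep_unique (h : RT r p) (g : V → ℕ) (h0 : g r = 0)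
    (h1 : ∀ v, v ≠ r → g v = g (p v) + 1) (v : V) : dep r p v = g v := by
  generalize hn : dep r p v = n
  induction n using Nat.strong_induction_on generalizing v with
  | _ n ih =>
    by_cases hv : v = r
    · rw [hv, dep_root] at hn
      rw [hv, h0, hn]
    · have h2 := h.dep_succ hv
      rw [h1 v hv, ← ih (dep r p (p v)) (by omega) (p v) rfl]
      omega

end normal

theorem exNormal : ExNormal := by
  classical
  intro V _ _ G r hG
  have hne : Nonempty {p : V → V // RT r p ∧ InG G p} := by
    have h1 : ∀ v : V, ∃ u : V, v ≠ r → G.Adj v u ∧ G.dist u r < G.dist v r := by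
      intro v
      by_cases hv : v = r
      · exact ⟨v, fun h => absurd hv h⟩
      · obtain ⟨w, hw⟩ := hG.exists_walk_length_eq_dist v r
        cases w with
        | nil => exact absurd rfl hv
        | cons h w' =>
          refine ⟨_, fun _ => ⟨h, ?_⟩⟩
          rw [SimpleGraph.Walk.length_cons] at hw
          have := SimpleGraph.dist_le w'
          omega
    choose f hf using h1
    refine ⟨⟨fun v => if v = r then r else f v, ?_, ?_⟩⟩
    · apply RT_of_lt (fun v => G.dist v r)
      · simp
      · intro v hv
        simp only [if_neg hv]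
        exact (hf v hv).2
    · intro v hv
      by_cases hvr : v = r
      · subst hvr
        simp at hv
      · simp only [if_neg hvr]
        exact (hf v hvr).1
  obtain ⟨⟨p, hp, hpG⟩, hmax⟩ := Finite.exists_max
    (fun p : {p : V → V // RT r p ∧ InG G p} => ∑ v, dep r p.1 v)
  refine ⟨p, hp, hpG, ?_⟩
  by_contra hN
  have hN2 : ∃ x y, G.Adj x y ∧ ¬ Anc p x y ∧ ¬ Anc p y x ∧ dep r p x ≤ dep r p y := by
    unfold N943.NT.Normal at hN
    push Not at hN
    obtain ⟨u, v, huv, h1, h2⟩ := hN
    rcases le_total (dep r p u) (dep r p v) with h3 | h3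
    · exact ⟨u, v, huv, h1, h2, h3⟩
    · exact ⟨v, u, huv.symm, h2, h1, h3⟩
  obtain ⟨x, y, hxy, hnx, hny, hd⟩ := hN2
  have hxr : x ≠ r := by
    rintro rfl
    exact hnx (hp.anc_root y)
  obtain ⟨p', hp'⟩ : ∃ p' : V → V, ∀ v, p' v = if v = x then y else p v := ⟨_, fun _ => rfl⟩
  have hpx : p' x = y := by rw [hp', if_pos rfl]
  have hpn : ∀ v, v ≠ x → p' v = p v := fun v hv => by rw [hp', if_neg hv]
  have hRT : RT r p' := by
    apply RT_of_lt (fun v => if Anc p x v then 1 + dep r p y + dep r p v else dep r p v)
    · rw [hpn r (Ne.symm hxr)]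
      exact hp.1
    · intro v hv
      by_cases hvx : v = x
      · rw [hvx, hpx]
        simp only [if_neg hnx, if_pos (Anc.refl x)]
        omega
      · rw [hpn v hvx]
        have h1 := hp.dep_succ hv
        by_cases h2 : Anc p x v
        · have h3 : Anc p x (p v) := by
            rcases h2.cases with h4 | h4
            · exact absurd h4.symm hvx
            · exact h4
          simp only [if_pos h2, if_pos h3]
          omega
        · have h3 : ¬ Anc p x (p v) := fun h4 => h2 (h4.trans (Anc.parent v))
          simp only [if_neg h2, if_neg h3]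
          omega
  have hIn : InG G p' := by
    intro v hv
    by_cases hvx : v = x
    · rw [hvx, hpx]
      exact hxy
    · rw [hpn v hvx] at hv ⊢
      exact hpG v hv
  have hdep : ∀ v, dep r p' v =
      if Anc p x v then dep r p v - dep r p x + dep r p y + 1 else dep r p v := by
    apply dep_unique hRT
    · rw [if_neg (fun h => hxr (Anc.root_of hp h))]
      exact dep_root
    · intro v hv
      by_cases hvx : v = x
      · rw [hvx, hpx, if_pos (Anc.refl x), if_neg hnx]
        omega
      · rw [hpn v hvx]
        have h1 := hp.dep_succ hv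
        by_cases h2 : Anc p x v
        · have h3 : Anc p x (p v) := by
            rcases h2.cases with h4 | h4
            · exact absurd h4.symm hvx
            · exact h4
          have h5 := Anc.dep_le hp h3
          simp only [if_pos h2, if_pos h3]
          omega
        · have h3 : ¬ Anc p x (p v) := fun h4 => h2 (h4.trans (Anc.parent v))
          simp only [if_neg h2, if_neg h3]
          omega
  have h1 := hmax ⟨p', hRT, hIn⟩
  have h2 : ∑ v, dep r p v < ∑ v, dep r p' v := by
    apply sum_lt_sum
    · intro v _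
      rw [hdep]
      split_ifs with h3
      · have := Anc.dep_le hp h3
        omega
      · exact le_rfl
    · refine ⟨x, mem_univ x, ?_⟩
      rw [hdep, if_pos (Anc.refl x)]
      omega
  have h3 : ∑ v, dep r p' v ≤ ∑ v, dep r p v := h1
  omega

end Pool.Agent.N749.NT
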