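import Pool.Agent.N943.NT.Basic

set_option autoImplicit false

/-!
Project NT, tasks NT/1 (the graph of a parent function is a spanning tree) and NT/5c (numbers).
-/

namespace Pool.Agent.N749.NT

open Finset N943.NT

theorem treeOf : TreeOf := by
  intro V _ G r p hp hG
  have hadj : ∀ v w, (gr p).Adj v w ↔ v ≠ w ∧ (p v = w ∨ p w = v) := by
    intro v w
    unfold gr
    rw [SimpleGraph.fromRel_adj]
  refine ⟨?_, ?_⟩
  · intro v w hvw
    rw [hadj] at hvw
    obtain ⟨hne, h | h⟩ := hvw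
    · have := hG v (by rw [h]; exact hne.symm)
      rwa [h] at this
    · have := hG w (by rw [h]; exact hne)
      rw [h] at this
      exact this.symm
  · have hreach : ∀ v, (gr p).Reachable v r := by
      intro v
      generalize hn : dep r p v = n
      induction n using Nat.strong_induction_on generalizing v with
      | _ n ih =>
        by_cases hv : v = r
        · rw [hv]
        · have h1 := hp.dep_succ hv
          have h2 := ih (dep r p (p v)) (by omega) (p v) rfl
          have h3 : (gr p).Adj v (p v) :=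
            (hadj _ _).2 ⟨fun h => hv (hp.eq_root_of_fix h.symm), Or.inl rfl⟩
          exact h3.reachable.trans h2
    have hconn : (gr p).Connected := by
      have : Nonempty V := ⟨r⟩
      exact SimpleGraph.Connected.mk fun u v => (hreach u).trans (hreach v).symm
    rw [SimpleGraph.isTree_iff_connected_and_card]
    refine ⟨hconn, le_antisymm ?_ hconn.card_vert_le_card_edgeSet_add_one⟩
    have h1 : (gr p).edgeSet ⊆ (fun v => s(v, p v)) '' {v | v ≠ r} := by
      intro e he
      induction e using Sym2.inductionOn with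
      | _ v w =>
        rw [SimpleGraph.mem_edgeSet, hadj] at he
        obtain ⟨hne, h | h⟩ := he
        · refine ⟨v, ?_, ?_⟩
          · rintro rfl
            rw [hp.1] at h
            exact hne h
          · show s(v, p v) = s(v, w)
            rw [h]
        · refine ⟨w, ?_, ?_⟩
          · rintro rfl
            rw [hp.1] at h
            exact hne h.symm
          · show s(w, p w) = s(v, w)
            rw [h, Sym2.eq_swap]
    have h2 : Nat.card (gr p).edgeSet ≤ {v : V | v ≠ r}.ncard := by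
      rw [Nat.card_coe_set_eq]
      exact (Set.ncard_le_ncard h1 (Set.toFinite _)).trans (Set.ncard_image_le (Set.toFinite _))
    have h3 : {v : V | v ≠ r}.ncard + 1 = Nat.card V := by
      have h4 : {v : V | v ≠ r} = Set.univ \ {r} := by
        ext v
        simp
      rw [h4, Set.ncard_sdiff_singleton_add_one (Set.mem_univ r), Set.ncard_univ]
    omega

theorem numI : NumI := by
  intro D hD
  obtain ⟨E, hE⟩ : ∃ E : ℝ, E = (D.factorial : ℝ) := ⟨_, rfl⟩
  have hE1 : 1 ≤ E := by
    rw [hE]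
    exact_mod_cast Nat.succ_le_of_lt D.factorial_pos
  obtain ⟨A, hA⟩ : ∃ A : ℝ, A = 2 * Real.exp 2 * E := ⟨_, rfl⟩
  have he2 : 1 ≤ Real.exp 2 := Real.one_le_exp (by norm_num)
  have hA2 : 2 ≤ A := by
    rw [hA]
    nlinarith
  have hDr : (1 : ℝ) ≤ D := by exact_mod_cast hD
  have hD2 : (0 : ℝ) < (D : ℝ) ^ 2 := by positivity
  obtain ⟨θ, hθ⟩ : ∃ θ : ℝ, θ = 1 / (8 * (D : ℝ) ^ 2 * A) := ⟨_, rfl⟩
  have hθ0 : 0 < θ := by rw [hθ]; positivity
  have hθA : θ * (8 * (D : ℝ) ^ 2 * A) = 1 := by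
    rw [hθ]
    field_simp
  have hlog : 0 ≤ Real.log E := Real.log_nonneg hE1
  refine ⟨θ / (2 * (Real.log E + 1)), θ / 2, by positivity, by positivity, ⌈2 / θ⌉₊, ?_⟩
  intro n b l hn hnb hl
  rw [← hE]
  have hn1 : 2 / θ ≤ n := (Nat.le_ceil _).trans (by exact_mod_cast hn)
  have hθn : 2 ≤ θ * n := by
    rw [div_le_iff₀ hθ0] at hn1
    linarith
  obtain ⟨k, hk⟩ : ∃ k : ℕ, k = ⌊θ * n⌋₊ := ⟨_, rfl⟩
  have hk1 : (k : ℝ) ≤ θ * n := by
    rw [hk]
    exact Nat.floor_le (by positivity)
  have hk2 : θ * n < k + 1 := by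
    rw [hk]
    exact Nat.lt_floor_add_one _
  have hk3 : θ * n / 2 ≤ k := by linarith
  have hk0 : (1 : ℝ) ≤ k := by linarith
  have hb : (n : ℝ) ≤ 4 * (D : ℝ) ^ 2 * b := by exact_mod_cast hnb
  have hkA : (k : ℝ) * A ≤ b / 2 := by
    have h1 : (k : ℝ) * A * (8 * (D : ℝ) ^ 2) ≤ n := by
      calc (k : ℝ) * A * (8 * (D : ℝ) ^ 2) ≤ θ * n * A * (8 * (D : ℝ) ^ 2) := by gcongr
        _ = (θ * (8 * (D : ℝ) ^ 2 * A)) * n := by ring
        _ = n := by rw [hθA, one_mul]
    have h2 : (k : ℝ) * A * (8 * (D : ℝ) ^ 2) ≤ (b / 2) * (8 * (D : ℝ) ^ 2) := by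
      calc _ ≤ (n : ℝ) := h1
        _ ≤ 4 * (D : ℝ) ^ 2 * b := hb
        _ = _ := by ring
    exact le_of_mul_le_mul_right h2 (by positivity)
  have hkb : (k : ℝ) ≤ b / 4 := by nlinarith
  have hb0 : (0 : ℝ) ≤ b := Nat.cast_nonneg b
  have hkb' : k ≤ b := by
    have : (k : ℝ) ≤ b := by linarith
    exact_mod_cast this
  have hsub : ((b + 1 - k : ℕ) : ℝ) = (b : ℝ) + 1 - k := by
    rw [Nat.cast_sub (by omega)]
    push_cast
    ring
  have h3 : (k : ℝ) * A ≤ ((b + 1 - k : ℕ) : ℝ) := by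
    rw [hsub]
    linarith
  have h4 : (((b + 1 - k : ℕ) ^ k : ℕ) : ℝ) ≤ (k.factorial : ℝ) * (b.choose k : ℝ) := by
    have := Nat.pow_le_choose (α := ℝ) k b
    push_cast
    rw [div_le_iff₀ (by exact_mod_cast k.factorial_pos)] at this
    rw [mul_comm]
    exact this
  have h5 : (k.factorial : ℝ) ≤ (k : ℝ) ^ k := by exact_mod_cast Nat.factorial_le_pow k
  have h6 : A ^ k ≤ (b.choose k : ℝ) := by
    have h7 : ((k : ℝ) * A) ^ k ≤ (k : ℝ) ^ k * (b.choose k : ℝ) := by
      calc ((k : ℝ) * A) ^ k ≤ ((b + 1 - k : ℕ) : ℝ) ^ k := by gcongr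
        _ = (((b + 1 - k : ℕ) ^ k : ℕ) : ℝ) := by push_cast; ring
        _ ≤ (k.factorial : ℝ) * (b.choose k : ℝ) := h4
        _ ≤ _ := by gcongr
    rw [mul_pow] at h7
    exact le_of_mul_le_mul_left h7 (by positivity)
  refine ⟨k, le_trans ?_ h6⟩
  have hlE : (l : ℝ) * Real.log E ≤ k := by
    have h7 : (l : ℝ) * Real.log E ≤ θ / (2 * (Real.log E + 1)) * n * Real.log E := by gcongr
    have h8 : θ / (2 * (Real.log E + 1)) * n * Real.log E ≤ θ * n / 2 := by
      have h9 : θ / (2 * (Real.log E + 1)) * n * Real.log E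
          = θ * n / 2 * (Real.log E / (Real.log E + 1)) := by
        field_simp
      rw [h9]
      have h10 : Real.log E / (Real.log E + 1) ≤ 1 := by
        rw [div_le_one (by positivity)]
        linarith
      have h11 : 0 ≤ θ * n / 2 := by positivity
      nlinarith
    linarith
  have hEl : E ^ l ≤ Real.exp k := by
    have h7 : E ^ l = Real.exp (l * Real.log E) := by
      rw [Real.exp_nat_mul, Real.exp_log (by linarith)]
    rw [h7]
    exact Real.exp_le_exp.2 hlE
  have hcn : Real.exp (θ / 2 * n) ≤ Real.exp k := Real.exp_le_exp.2 (by linarith)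
  calc Real.exp (θ / 2 * n) * E ^ (l + k) = Real.exp (θ / 2 * n) * E ^ l * E ^ k := by
        rw [pow_add, mul_assoc]
    _ ≤ Real.exp k * Real.exp k * E ^ k := by gcongr
    _ = (Real.exp 2 * E) ^ k := by
        rw [← Real.exp_add, mul_pow, ← Real.exp_nat_mul]
        congr 2
        ring
    _ ≤ A ^ k := by
        rw [hA]
        have : Real.exp 2 * E ≤ 2 * Real.exp 2 * E := by nlinarith
        gcongr

end Pool.Agent.N749.NT
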